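import Pool.Agent.P.MP_d583b7_an.Maps

set_option autoImplicit false

namespace Pool.Agent.Results.MP_d583b7_an.Q2Calkin

/-- `A` is semi-Fredholm: closed range, and finite-dimensional kernel or range of finite
codimension. -/
def SemiFredholm {X : Type} [NormedAddCommGroup X] [NormedSpace ℂ X] (A : X →L[ℂ] X) : Prop :=
  IsClosed (A.range : Set X) ∧
    (FiniteDimensional ℂ A.ker ∨ FiniteDimensional ℂ (X ⧸ A.range))

/-- The ideal `K(X)` of compact operators in `B(X)`. -/
def compactIdeal (X : Type) [NormedAddCommGroup X] [NormedSpace ℂ X] : Ideal (X →L[ℂ] X) where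
  carrier := {A | IsCompactOperator A}
  add_mem' := fun hA hB => IsCompactOperator.add hA hB
  zero_mem' := isCompactOperator_zero
  smul_mem' := fun B _ hA => IsCompactOperator.clm_comp hA B

instance compactIdeal_isTwoSided (X : Type) [NormedAddCommGroup X] [NormedSpace ℂ X] :
    (compactIdeal X).IsTwoSided :=
  ⟨fun B hA => IsCompactOperator.comp_clm hA B⟩

/-- `φ` is a complex-linear, continuous, bijective, unital self-map of a normed algebra. -/
def UnitalLinearBijection {R : Type} [NormedRing R] [NormedAlgebra ℂ R] (φ : R → R) : Prop :=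
  IsLinearMap ℂ φ ∧ Continuous φ ∧ Function.Bijective φ ∧ φ 1 = 1

/-- `τ` is an algebra automorphism or an algebra anti-automorphism. -/
def AutOrAnti {C : Type} [Ring C] [Algebra ℂ C] (τ : C → C) : Prop :=
  IsLinearMap ℂ τ ∧ Function.Bijective τ ∧
    ((∀ x y, τ (x * y) = τ x * τ y) ∨ (∀ x y, τ (x * y) = τ y * τ x))

/-- Form (SF) relative to a two-sided ideal `I`: `φ` maps `I` into `I` and the induced map on
`R / I` is `x ↦ a * τ x` with `a` invertible and `τ` an automorphism or an anti-automorphism. -/
def FormSF {R : Type} [Ring R] [Algebra ℂ R] (I : Ideal R) [I.IsTwoSided] (φ : R → R) : Prop :=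
  (∀ K ∈ I, φ K ∈ I) ∧
    ∃ (a : R ⧸ I) (τ : R ⧸ I → R ⧸ I), IsUnit a ∧ AutOrAnti τ ∧
      ∀ A : R, Ideal.Quotient.mk I (φ A) = a * τ (Ideal.Quotient.mk I A)

/-- There are an infinite-dimensional complex Banach space `X` and a bijective, continuous, unital
linear map `φ` on `B(X)` that fixes every compact operator and preserves semi-Fredholm operators in
both directions, but does not have form (SF). -/
theorem result :
    ∃ (X : Type) (_ : NormedAddCommGroup X) (_ : NormedSpace ℂ X) (_ : CompleteSpace X),
      ¬ FiniteDimensional ℂ X ∧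
      ∃ φ : (X →L[ℂ] X) → (X →L[ℂ] X),
        UnitalLinearBijection φ ∧
        (∀ K : X →L[ℂ] X, IsCompactOperator K → φ K = K) ∧
        (∀ A : X →L[ℂ] X, SemiFredholm (φ A) ↔ SemiFredholm A) ∧
        ¬ FormSF (compactIdeal X) φ := by
  open Pool.Agent.P.MP_d583b7_an in
  obtain ⟨f, hK, h1, hS, hE⟩ := exists_functional
  open Pool.Agent.P.MP_d583b7_an in
  have hone : shear f 1 = 1 := by
    rw [shear_apply, h1]
    refine ContinuousLinearMap.ext fun z => ?_
    simp
  open Pool.Agent.P.MP_d583b7_an in
  have hEE : shear f EE = EE + SS := by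
    rw [shear_apply, hE]
    refine ContinuousLinearMap.ext fun z => ?_
    simp
  open Pool.Agent.P.MP_d583b7_an in
  refine ⟨XX, inferInstance, inferInstance, inferInstance, XX_infinite, shear f,
    ⟨(shear f).toLinearMap.isLinear, (shear f).continuous, shear_bijective f hS, hone⟩,
    fun K hKc => ?_, shear_semi f, ?_⟩
  · rw [Pool.Agent.P.MP_d583b7_an.shear_apply, hK K hKc]
    refine ContinuousLinearMap.ext fun z => ?_
    simp
  · rintro ⟨-, a, τ, -, ⟨-, hbij, hτ⟩, hφ⟩
    have hsq : ∀ x, τ (x * x) = τ x * τ x := fun x => by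
      rcases hτ with h | h <;> exact h x x
    have hτ1 : τ 1 = 1 := by
      obtain ⟨u, hu⟩ := hbij.2 1
      rcases hτ with h | h
      · have := h u 1
        rw [mul_one, hu, one_mul] at this
        exact this.symm
      · have := h 1 u
        rw [one_mul, hu, one_mul] at this
        exact this.symm
    have ha := hφ 1
    rw [hone, map_one, hτ1, mul_one] at ha
    have h2 := hφ Pool.Agent.P.MP_d583b7_an.EE
    rw [← ha, one_mul, hEE] at h2
    have h3 := hsq (Ideal.Quotient.mk _ Pool.Agent.P.MP_d583b7_an.EE)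
    rw [← map_mul, Pool.Agent.P.MP_d583b7_an.EE_EE, ← h2, ← map_mul] at h3
    exact Pool.Agent.P.MP_d583b7_an.not_jordan (Ideal.Quotient.eq.mp h3)

end Pool.Agent.Results.MP_d583b7_an.Q2Calkin
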