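import Pool.Agent.P.MP_d583b7_an.Maps

set_option autoImplicit false

namespace Pool.Agent.Results.MP_d583b7_an.Q2Compacts

/-- `A` is semi-Fredholm: closed range, and finite-dimensional kernel or range of finite
codimension. -/
def IsSemiFredholm {X : Type} [NormedAddCommGroup X] [NormedSpace ℂ X] (A : X →L[ℂ] X) : Prop :=
  IsClosed (A.range : Set X) ∧
    (FiniteDimensional ℂ A.ker ∨ FiniteDimensional ℂ (X ⧸ A.range))

/-- `φ` is a complex-linear, continuous, bijective, unital self-map of a normed algebra. -/
def IsUnitalLinearBijection {R : Type} [NormedRing R] [NormedAlgebra ℂ R] (φ : R → R) : Prop :=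
  IsLinearMap ℂ φ ∧ Continuous φ ∧ Function.Bijective φ ∧ φ 1 = 1

/-- There are an infinite-dimensional complex Banach space `X` and a bijective, continuous, unital
linear map `φ` on `B(X)` preserving semi-Fredholm operators in both directions which sends some
compact operator to a non-compact operator. -/
theorem result :
    ∃ (X : Type) (_ : NormedAddCommGroup X) (_ : NormedSpace ℂ X) (_ : CompleteSpace X),
      ¬ FiniteDimensional ℂ X ∧
      ∃ φ : (X →L[ℂ] X) → (X →L[ℂ] X),
        IsUnitalLinearBijection φ ∧
        (∀ A : X →L[ℂ] X, IsSemiFredholm (φ A) ↔ IsSemiFredholm A) ∧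
        ∃ K : X →L[ℂ] X, IsCompactOperator K ∧ ¬ IsCompactOperator (φ K) := by
  open Pool.Agent.P.MP_d583b7_an in
  refine ⟨XX, inferInstance, inferInstance, inferInstance, XX_infinite, shear f01,
    ⟨(shear f01).toLinearMap.isLinear, (shear f01).continuous, shear_bijective f01 f01_SS, ?_⟩,
    shear_semi f01, K01, K01_compact, shear_K01_not_compact⟩
  rw [Pool.Agent.P.MP_d583b7_an.shear_apply, Pool.Agent.P.MP_d583b7_an.f01_one]
  refine ContinuousLinearMap.ext fun z => ?_
  simp

end Pool.Agent.Results.MP_d583b7_an.Q2Compacts
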